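import Pool.Agent.Q4.GLC.Stm

/-!
# Project GLC: congruence subgroups and elementary matrices
-/

open IsDedekindDomain NumberField Matrix

namespace Q211.GLC

open Q4.GLC

section tv

variable {R : Type} [CommRing R] {n : ℕ}

/-- the elementary matrix -/
def tv (i j : Fin n) (h : i ≠ j) (c : R) : GL (Fin n) R where
  val := transvection i j c
  inv := transvection i j (-c)
  val_inv := by rw [transvection_mul_transvection_same i j h, add_neg_cancel, transvection_zero]
  inv_val := by rw [transvection_mul_transvection_same i j h, neg_add_cancel, transvection_zero]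

theorem tv_val (i j : Fin n) (h : i ≠ j) (c : R) : (tv i j h c).1 = transvection i j c := rfl

theorem tv_inv (i j : Fin n) (h : i ≠ j) (c : R) : (tv i j h c)⁻¹ = tv i j h (-c) := by
  apply Units.ext
  rfl

theorem tv_inv_val (i j : Fin n) (h : i ≠ j) (c : R) : (tv i j h c)⁻¹.1 = transvection i j (-c) :=
  rfl

theorem tv_mul (i j : Fin n) (h : i ≠ j) (c d : R) : tv i j h c * tv i j h d = tv i j h (c + d) := by
  apply Units.ext
  rw [Units.val_mul, tv_val, tv_val, tv_val, transvection_mul_transvection_same i j h]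

theorem tv_zero (i j : Fin n) (h : i ≠ j) : tv i j h (0 : R) = 1 := by
  apply Units.ext
  rw [tv_val, transvection_zero, Units.val_one]

theorem tv_det (i j : Fin n) (h : i ≠ j) (c : R) : (tv i j h c).1.det = 1 := by
  rw [tv_val, det_transvection_of_ne i j h]

/-- the commutator of two elementary matrices -/
theorem tv_comm (i l j : Fin n) (hil : i ≠ l) (hlj : l ≠ j) (hij : i ≠ j) (a b : R) :
    tv i j hij (a * b) = tv i l hil a * tv l j hlj b * (tv i l hil a)⁻¹ * (tv l j hlj b)⁻¹ := by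
  have h1 : tv i j hij (a * b) * (tv l j hlj b * tv i l hil a) = tv i l hil a * tv l j hlj b := by
    apply Units.ext
    simp only [Units.val_mul, tv_val, transvection]
    have e1 : single i j (a * b) * single l j b = (0 : Matrix (Fin n) (Fin n) R) :=
      single_mul_single_of_ne _ _ _ _ (Ne.symm hlj) _
    have e2 : single i j (a * b) * single i l a = (0 : Matrix (Fin n) (Fin n) R) :=
      single_mul_single_of_ne _ _ _ _ (Ne.symm hij) _
    have e3 : single l j b * single i l a = (0 : Matrix (Fin n) (Fin n) R) :=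
      single_mul_single_of_ne _ _ _ _ (Ne.symm hij) _
    have e4 : single i l a * single l j b = (single i j (a * b) : Matrix (Fin n) (Fin n) R) :=
      single_mul_single_same _ _ _ _ _
    simp only [mul_add, add_mul, mul_one, one_mul, e1, e2, e3, e4, mul_zero, add_zero, zero_add]
    abel
  rw [← h1]
  group

theorem map_tv {S : Type} [CommRing S] (f : R →+* S) (i j : Fin n) (h : i ≠ j) (c : R) :
    Matrix.GeneralLinearGroup.map f (tv i j h c) = tv i j h (f c) := by
  apply Units.ext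
  ext x y
  rw [Matrix.GeneralLinearGroup.map_apply, tv_val, tv_val]
  simp only [transvection, Matrix.add_apply, map_add, Matrix.single_apply, Matrix.one_apply]
  split_ifs <;> simp

end tv

variable {F : Type} [Field F] [NumberField F]

theorem DvdN.mono {M M' : ℕ} (h : M ∣ M') {a : Af F} (ha : DvdN M' a) : DvdN M a := by
  obtain ⟨k, rfl⟩ := h
  intro v
  refine (ha v).trans ?_
  have e1 : ((M * k : ℕ) : Af F) v = ((M : Af F) v) * ((k : Af F) v) := by
    rw [Nat.cast_mul]
    rfl
  rw [e1, map_mul]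
  calc Valued.v ((M : Af F) v) * Valued.v ((k : Af F) v) ≤ Valued.v ((M : Af F) v) * 1 :=
        mul_le_mul' le_rfl (val_nat_le k v)
    _ = _ := mul_one _

theorem UN_mono (n : ℕ) {M M' : ℕ} (h : M ∣ M') : UN F n M' ≤ UN F n M := by
  rintro g ⟨h1, h2⟩
  exact ⟨fun i j => DvdN.mono h (h1 i j), fun i j => DvdN.mono h (h2 i j)⟩

/-- multiples -/
theorem DvdN.nat_mul {M : ℕ} {a : Af F} (ha : DvdN 1 a) : DvdN M ((M : Af F) * a) := by
  intro v
  have e1 : ((M : Af F) * a) v = ((M : Af F) v) * (a v) := rfl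
  rw [e1, map_mul]
  have h1 : Valued.v (a v) ≤ 1 := by
    have := ha v
    rw [Nat.cast_one] at this
    change Valued.v (a v) ≤ Valued.v (1 : v.adicCompletion F) at this
    rwa [map_one] at this
  calc Valued.v ((M : Af F) v) * Valued.v (a v) ≤ Valued.v ((M : Af F) v) * 1 :=
        mul_le_mul' le_rfl h1
    _ = _ := mul_one _

/-- integers are integral adeles -/
theorem dvdN_int (b : 𝓞 F) : DvdN 1 (algebraMap F (Af F) (algebraMap (𝓞 F) F b)) := by
  intro v
  rw [Nat.cast_one]
  change Valued.v (((algebraMap F (Af F) (algebraMap (𝓞 F) F b)) : Af F) v) ≤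
    Valued.v (1 : v.adicCompletion F)
  rw [map_one]
  have h1 : ((algebraMap F (Af F) (algebraMap (𝓞 F) F b)) : Af F) v =
      ((algebraMap (𝓞 F) F b : F) : v.adicCompletion F) := rfl
  rw [h1, HeightOneSpectrum.valuedAdicCompletion_eq_valuation']
  exact v.valuation_le_one b

/-- multiples of `M` in the integers -/
theorem dvdN_mul_int (M : ℕ) (b : 𝓞 F) :
    DvdN M (algebraMap F (Af F) (algebraMap (𝓞 F) F ((M : 𝓞 F) * b))) := by
  rw [map_mul, map_mul, map_natCast, map_natCast]
  exact DvdN.nat_mul (dvdN_int b)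

/-- integral matrices -/
noncomputable abbrev mi (F : Type) [Field F] [NumberField F] (n : ℕ) :
    GL (Fin n) (𝓞 F) →* GQ F n := Matrix.GeneralLinearGroup.map (algebraMap (𝓞 F) F)

theorem dg_apply {n : ℕ} (g : GQ F n) (i j : Fin n) :
    (dg F n g).1 i j = algebraMap F (Af F) (g.1 i j) := rfl

theorem mi_apply {n : ℕ} (g : GL (Fin n) (𝓞 F)) (i j : Fin n) :
    (mi F n g).1 i j = algebraMap (𝓞 F) F (g.1 i j) := rfl

theorem dg_mi_one {n : ℕ} (h : GL (Fin n) (𝓞 F)) : dg F n (mi F n h) ∈ UN F n 1 := by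
  have key : ∀ h : GL (Fin n) (𝓞 F), DvdM 1 ((dg F n (mi F n h)).1 - 1) := by
    intro h i j
    rw [Matrix.sub_apply]
    refine DvdN.sub ?_ (dvdM_one_one i j)
    rw [dg_apply, mi_apply]
    exact dvdN_int _
  refine ⟨key h, ?_⟩
  rw [← map_inv, ← map_inv]
  exact key h⁻¹

/-- congruence for integral matrices -/
theorem dg_mi_mem {n M : ℕ} (d : GL (Fin n) (𝓞 F))
    (h : ∀ i j, (M : 𝓞 F) ∣ d.1 i j - (1 : Matrix (Fin n) (Fin n) (𝓞 F)) i j) :
    dg F n (mi F n d) ∈ UN F n M := by
  have h1 : DvdM M ((dg F n (mi F n d)).1 - 1) := by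
    intro i j
    obtain ⟨b, hb⟩ := h i j
    have e1 : ((dg F n (mi F n d)).1 - 1) i j =
        algebraMap F (Af F) (algebraMap (𝓞 F) F ((M : 𝓞 F) * b)) := by
      rw [← hb, Matrix.sub_apply, dg_apply, mi_apply, map_sub, map_sub]
      congr 1
      rw [Matrix.one_apply, Matrix.one_apply]
      split_ifs <;> simp
    rw [e1]
    exact dvdN_mul_int M b
  refine ⟨h1, ?_⟩
  have e2 : ((dg F n (mi F n d))⁻¹).1 - 1 =
      ((dg F n (mi F n d))⁻¹).1 * -((dg F n (mi F n d)).1 - 1) := by
    have e3 : ((dg F n (mi F n d))⁻¹).1 * (dg F n (mi F n d)).1 = 1 := by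
      rw [← Units.val_mul, inv_mul_cancel, Units.val_one]
    rw [neg_sub, mul_sub, mul_one, e3]
  rw [e2]
  refine DvdM.int_mul ?_ fun i j => (h1 i j).neg
  have h3 := (dg_mi_one (F := F) d).2
  have e4 : ((dg F n (mi F n d))⁻¹).1 = (((dg F n (mi F n d))⁻¹).1 - 1) + 1 := by abel
  rw [e4]
  exact h3.add dvdM_one_one

/-- integral matrices normalise the congruence subgroups -/
theorem UN_conj {n M : ℕ} {g u : Gf F n} (hg : g ∈ UN F n 1) (hu : u ∈ UN F n M) :
    g * u * g⁻¹ ∈ UN F n M := by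
  have hint : ∀ g : Gf F n, g ∈ UN F n 1 → DvdM 1 g.1 := by
    intro g hg
    have e4 : g.1 = (g.1 - 1) + 1 := by abel
    rw [e4]
    exact hg.1.add dvdM_one_one
  have key : ∀ u : Gf F n, DvdM M (u.1 - 1) → DvdM M ((g * u * g⁻¹).1 - 1) := by
    intro u hu
    have e1 : (g * u * g⁻¹).1 - 1 = g.1 * (u.1 - 1) * g⁻¹.1 := by
      have e3 : g.1 * g⁻¹.1 = 1 := by rw [← Units.val_mul, mul_inv_cancel, Units.val_one]
      rw [Units.val_mul, Units.val_mul, mul_sub, sub_mul, mul_one, e3]
    rw [e1]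
    exact (DvdM.int_mul (hint g hg) hu).mul_int (hint g⁻¹ ((UN F n 1).inv_mem hg))
  refine ⟨key u hu.1, ?_⟩
  have e2 : (g * u * g⁻¹)⁻¹ = g * u⁻¹ * g⁻¹ := by group
  rw [e2]
  exact key u⁻¹ hu.2

end Q211.GLC
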